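import Pool.Agent.H25.EE.TargetsB

/-!
Row STR of the board ee_modules (MP_58ae59_nt): number of nodes in a strip.
-/

set_option autoImplicit false

open Polynomial Finset

namespace Pool.Agent.H49.EE5.STR

open Pool.Agent.H25.EE

private theorem card_int (lo hi : ℝ) (h : lo ≤ hi) :
    (((Icc ⌈lo⌉ ⌊hi⌋).card : ℕ) : ℝ) ≤ hi - lo + 1 := by
  rw [Int.card_Icc]
  have h1 : (⌊hi⌋ : ℝ) ≤ hi := Int.floor_le hi
  have h2 : lo ≤ (⌈lo⌉ : ℝ) := Int.le_ceil lo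
  rcases le_total 0 (⌊hi⌋ + 1 - ⌈lo⌉) with h0 | h0
  · have h3 : (((⌊hi⌋ + 1 - ⌈lo⌉).toNat : ℤ) : ℝ) = ((⌊hi⌋ + 1 - ⌈lo⌉ : ℤ) : ℝ) := by
      rw [Int.toNat_of_nonneg h0]
    have h4 : (((⌊hi⌋ + 1 - ⌈lo⌉).toNat : ℕ) : ℝ) = ((⌊hi⌋ + 1 - ⌈lo⌉ : ℤ) : ℝ) := by
      rw [← h3]
      norm_cast
    rw [h4]
    push_cast
    linarith
  · rw [Int.toNat_of_nonpos h0]
    simp only [Nat.cast_zero]
    linarith

theorem pf_STR : T_STR := by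
  classical
  intro κ1 κ2 hκ
  have hκ' : 0 < |κ1| := abs_pos.2 hκ
  refine ⟨3 * (2 / |κ1| + 1), fun J M hM hMJ x => ?_⟩
  have hM1 : (1 : ℝ) ≤ M := by exact_mod_cast hM
  have hM0 : (0 : ℝ) < M := by linarith
  have hMJ' : (M : ℝ) ≤ J := by exact_mod_cast hMJ
  have hJ1 : (1 : ℝ) ≤ J := hM1.trans hMJ'
  obtain ⟨X, hX⟩ : ∃ X : ℝ, X = (x.1 : ℝ) * κ1 + x.2 * κ2 := ⟨_, rfl⟩
  obtain ⟨R, hR⟩ : ∃ R : ℝ, R = J / (M * |κ1|) := ⟨_, rfl⟩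
  have hR0 : 0 ≤ R := by rw [hR]; positivity
  let lo : ℤ → ℝ := fun b => (X - b * κ2) / κ1 - R
  let hi : ℤ → ℝ := fun b => (X - b * κ2) / κ1 + R
  have hsub : ((nd J).filter fun y : ℤ × ℤ =>
      |((x.1 : ℝ) * κ1 + x.2 * κ2) - ((y.1 : ℝ) * κ1 + y.2 * κ2)| * M ≤ J) ⊆
      (Icc (-(J : ℤ)) J).biUnion fun b => (Icc ⌈lo b⌉ ⌊hi b⌋).image fun a => (a, b) := by
    intro y hy
    obtain ⟨h1, h2⟩ := Finset.mem_filter.1 hy
    unfold nd at h1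
    obtain ⟨-, h3⟩ := Finset.mem_product.1 h1
    rw [Finset.mem_biUnion]
    refine ⟨y.2, h3, Finset.mem_image.2 ⟨y.1, ?_, rfl⟩⟩
    rw [← hX] at h2
    have h4 : |(y.1 : ℝ) - (X - y.2 * κ2) / κ1| ≤ R := by
      have e1 : X - ((y.1 : ℝ) * κ1 + y.2 * κ2) =
          -(κ1 * ((y.1 : ℝ) - (X - y.2 * κ2) / κ1)) := by
        field_simp
        ring
      rw [e1, abs_neg, abs_mul] at h2
      rw [hR, le_div_iff₀ (by positivity)]
      calc |(y.1 : ℝ) - (X - y.2 * κ2) / κ1| * (M * |κ1|) =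
          |κ1| * |(y.1 : ℝ) - (X - y.2 * κ2) / κ1| * M := by ring
        _ ≤ J := h2
    obtain ⟨h5, h6⟩ := abs_le.1 h4
    rw [Finset.mem_Icc]
    constructor
    · rw [Int.ceil_le]
      simp only [lo]
      linarith
    · rw [Int.le_floor]
      simp only [hi]
      linarith
  have hcard : ((((nd J).filter fun y : ℤ × ℤ =>
      |((x.1 : ℝ) * κ1 + x.2 * κ2) - ((y.1 : ℝ) * κ1 + y.2 * κ2)| * M ≤ J).card : ℕ) : ℝ) ≤
      ∑ b ∈ Icc (-(J : ℤ)) J, (2 * R + 1) := by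
    have h1 := (Finset.card_le_card hsub).trans Finset.card_biUnion_le
    have h2 : (∑ b ∈ Icc (-(J : ℤ)) J, ((Icc ⌈lo b⌉ ⌊hi b⌋).image fun a => (a, b)).card) ≤
        ∑ b ∈ Icc (-(J : ℤ)) J, (Icc ⌈lo b⌉ ⌊hi b⌋).card :=
      Finset.sum_le_sum fun b _ => Finset.card_image_le
    have h3 : ((((nd J).filter fun y : ℤ × ℤ =>
        |((x.1 : ℝ) * κ1 + x.2 * κ2) - ((y.1 : ℝ) * κ1 + y.2 * κ2)| * M ≤ J).card : ℕ) : ℝ) ≤
        ((∑ b ∈ Icc (-(J : ℤ)) J, (Icc ⌈lo b⌉ ⌊hi b⌋).card : ℕ) : ℝ) := by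
      exact_mod_cast h1.trans h2
    refine h3.trans ?_
    rw [Nat.cast_sum]
    refine Finset.sum_le_sum fun b _ => ?_
    refine (card_int (lo b) (hi b) (by simp only [lo, hi]; linarith)).trans ?_
    simp only [lo, hi]
    linarith
  have hJc : (((Icc (-(J : ℤ)) J).card : ℕ) : ℝ) = 2 * J + 1 := by
    rw [Int.card_Icc]
    have : ((J : ℤ) + 1 - -(J : ℤ)).toNat = 2 * J + 1 := by omega
    rw [this]
    push_cast
    ring
  rw [Finset.sum_const, nsmul_eq_mul, hJc] at hcard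
  refine hcard.trans ?_
  have h1 : 2 * R + 1 ≤ (2 / |κ1| + 1) * (J / M) := by
    have h2 : (1 : ℝ) ≤ J / M := by
      rw [le_div_iff₀ hM0]
      linarith
    have h3 : 2 * R = 2 / |κ1| * (J / M) := by
      rw [hR]
      field_simp
    rw [h3, add_mul, one_mul]
    linarith
  have h4 : 2 * (J : ℝ) + 1 ≤ 3 * J := by linarith
  calc (2 * (J : ℝ) + 1) * (2 * R + 1) ≤ (3 * J) * ((2 / |κ1| + 1) * (J / M)) := by
        gcongr
    _ = 3 * (2 / |κ1| + 1) * (J : ℝ) ^ 2 / M := by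
        field_simp

end Pool.Agent.H49.EE5.STR
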